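import Pool.Agent.helper81.BS.SpecG

/-! # bs:A7 (helper46): the list of important sets -/

set_option autoImplicit false
set_option linter.dupNamespace false
set_option linter.unusedVariables false
set_option linter.unusedSectionVars false

namespace Pool.Agent.helper81.BS

open Pool.Agent.helper81.PL

theorem A7_feas (n : ℕ) (E Q : Finset ℕ) (v : ℕ) (hv : v < n) (hvQ : v ∉ Q) : Feas n E Q v {v} := by
  refine ⟨?_, ?_, ?_, ?_⟩
  · intro x hx
    rw [Finset.mem_singleton.1 hx]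
    exact Finset.mem_range.2 hv
  · exact Finset.disjoint_singleton_left.2 hvQ
  · exact Finset.mem_singleton_self v
  · intro X hX hvX hne
    exact absurd (Finset.Subset.antisymm hX (Finset.singleton_subset_iff.2 hvX)) hne

theorem A7_ext (hM4 : M4_stmt) (hA6 : A6_stmt) (N n : ℕ) (E Q : Finset ℕ) (v c : ℕ) (M R : Finset ℕ)
    (hN : n * n + n ≤ N) (hW : WF n E) (hQ : Q ⊆ Finset.range n) (hF : Feas n E Q v M) :
    R ∈ ext N n E Q v c M ↔ ∃ b, b < n ∧ b ∉ M ∧ b ∉ Q ∧ (∃ a ∈ M, adjb n E a b = true) ∧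
      IsFM n E Q v (insert b M) R ∧ dd n E R ≤ c := by
  unfold ext
  rw [List.mem_filterMap]
  constructor
  · rintro ⟨b, hb, h⟩
    have hbn := List.mem_range.1 hb
    rw [Bool.cond_eq_ite] at h
    split_ifs at h with hc
    · simp only [Bool.and_eq_true, Bool.not_eq_true', fmem, decide_eq_false_iff_not,
        List.any_eq_true, Finset.mem_sort] at hc
      obtain ⟨⟨h1, h2⟩, a, ha, hab⟩ := hc
      have hF2 := (hM4 n E Q v M hF).2 a ha b hbn h2 hab
      obtain ⟨h3, h4⟩ := (hA6 N n E Q v (insert b M) c R hN hW hQ hF2).1 h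
      exact ⟨b, hbn, h1, h2, ⟨a, ha, hab⟩, h3, h4⟩
  · rintro ⟨b, hbn, h1, h2, ⟨a, ha, hab⟩, h3, h4⟩
    refine ⟨b, List.mem_range.2 hbn, ?_⟩
    rw [Bool.cond_eq_ite, if_pos]
    · exact (hA6 N n E Q v (insert b M) c R hN hW hQ ((hM4 n E Q v M hF).2 a ha b hbn h2 hab)).2
        ⟨h3, h4⟩
    · simp only [Bool.and_eq_true, Bool.not_eq_true', fmem, decide_eq_false_iff_not,
        List.any_eq_true, Finset.mem_sort]
      exact ⟨⟨h1, h2⟩, a, ha, hab⟩

theorem A7 (hM4 : M4_stmt) (hM5 : M5_stmt) (hM7 : M7_stmt) (hM9 : M9_stmt) (hM11 : M11_stmt)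
    (hA6 : A6_stmt) : A7_stmt := by
  intro N n E Q v c hN hW hQ hv hvQ
  have hN1 : n * n + n ≤ N := le_trans (Nat.le_add_right _ _) hN
  have hnN : n ≤ N := le_trans (Nat.le_add_left _ _) hN1
  have hcN : 4 ^ c ≤ N := le_trans (Nat.le_add_left _ _) hN
  have hFv := A7_feas n E Q v hv hvQ
  obtain ⟨P, hP⟩ : ∃ P : List (Finset ℕ) → Prop, P = fun L => L.Nodup ∧
    ∀ R ∈ L, Imp n E Q v R ∧ dd n E R ≤ c := ⟨_, rfl⟩
  have hlen : ∀ L, P L → L.length ≤ 4 ^ c := by
    intro L hL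
    rw [hP] at hL
    obtain ⟨hL1, hL2⟩ := hL
    obtain ⟨M, hM, -⟩ := hM5 n E Q v {v} hW hFv
    have h1 := hM11 n E Q v {v} M c L.toFinset hW hFv hM (by
      intro R hR
      obtain ⟨h2, h3⟩ := hL2 R (List.mem_toFinset.1 hR)
      exact ⟨h2, Finset.singleton_subset_iff.2 h2.1.2.2.1, h3⟩)
    rw [List.toFinset_card_of_nodup hL1] at h1
    have h2 : 0 < 2 ^ dd n E M := by positivity
    calc L.length = L.length * 1 := by ring
      _ ≤ L.length * 2 ^ dd n E M := Nat.mul_le_mul_left _ h2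
      _ ≤ _ := h1
  have hfit : ∀ L, P L → Clip.Fits N L := by
    intro L hL
    refine ⟨(hlen L hL).trans hcN, ?_⟩
    rw [hP] at hL
    intro R hR y hy
    have h1 := (hL.2 R hR).1.1.1 hy
    exact lt_of_lt_of_le (Finset.mem_range.1 h1) hnN
  have hx : P (fm N n E Q v {v} c).toList := by
    rw [hP]
    cases h : fm N n E Q v {v} c with
    | none => exact ⟨List.nodup_nil, by intro R hR; simp at hR⟩
    | some M =>
      refine ⟨by simp, ?_⟩
      intro R hR
      have hR' : R = M := by simpa using hR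
      rw [hR']
      obtain ⟨h1, h2⟩ := (hA6 N n E Q v {v} c M hN1 hW hQ hFv).1 h
      exact ⟨hM7 n E Q v {v} M h1, h2⟩
  have hs : ∀ L, P L → P (impStep N n E Q v c L) := by
    intro L hL
    rw [hP] at hL ⊢
    refine ⟨List.nodup_dedup _, ?_⟩
    intro R hR
    unfold impStep at hR
    rw [List.mem_dedup, List.mem_append, List.mem_flatMap] at hR
    rcases hR with hR | ⟨M, hM, hR⟩
    · exact hL.2 R hR
    · obtain ⟨b, -, -, -, -, h1, h2⟩ := (A7_ext hM4 hA6 N n E Q v c M R hN1 hW hQ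
        (hL.2 M hM).1.1).1 hR
      exact ⟨hM7 n E Q v _ R h1, h2⟩
  obtain ⟨h1, h2⟩ := citer_inv (N := N) (n := c + 1) (s := fun L => impStep N n E Q v c L)
    (x := (fm N n E Q v {v} c).toList) P hx hs hfit
  have h3 : impL N n E Q v c = (fun L => impStep N n E Q v c L)^[c + 1]
    (fm N n E Q v {v} c).toList := h1
  have hall : ∀ i, P ((fun L => impStep N n E Q v c L)^[i] (fm N n E Q v {v} c).toList) := by
    intro i
    induction i with
    | zero => exact hx
    | succ i ih => rw [Function.iterate_succ_apply']; exact hs _ ih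
  rw [h3]
  have h4 := h2
  rw [hP] at h4
  refine ⟨h4.1, fun R => ⟨h4.2 R, ?_⟩, hlen _ h2⟩
  rintro ⟨hR1, hR2⟩
  refine hM9 n E Q v c (fun i M => M ∈ (fun L => impStep N n E Q v c L)^[i]
    (fm N n E Q v {v} c).toList) hW hv hvQ ?_ ?_ ?_ R hR1 hR2
  · intro M hM hMc
    show M ∈ (fm N n E Q v {v} c).toList
    rw [(hA6 N n E Q v {v} c M hN1 hW hQ hFv).2 ⟨hM, hMc⟩]
    simp
  · intro i M hM
    show M ∈ (fun L => impStep N n E Q v c L)^[i + 1] (fm N n E Q v {v} c).toList
    rw [Function.iterate_succ_apply']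
    show M ∈ impStep N n E Q v c _
    unfold impStep
    rw [List.mem_dedup, List.mem_append]
    exact Or.inl hM
  · intro i M hM hI b hbn hbM hbQ hab M' hM' hM'c
    show M' ∈ (fun L => impStep N n E Q v c L)^[i + 1] (fm N n E Q v {v} c).toList
    rw [Function.iterate_succ_apply']
    show M' ∈ impStep N n E Q v c _
    unfold impStep
    rw [List.mem_dedup, List.mem_append, List.mem_flatMap]
    exact Or.inr ⟨M, hM, (A7_ext hM4 hA6 N n E Q v c M M' hN1 hW hQ hI.1).2
      ⟨b, hbn, hbM, hbQ, hab, hM', hM'c⟩⟩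

end Pool.Agent.helper81.BS
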