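import Pool.Agent.helper81.BS.SpecG

/-! # bs:M10 (helper46): deleting an edge leaving `M` -/

set_option autoImplicit false
set_option linter.dupNamespace false
set_option linter.unusedVariables false
set_option linter.unusedSectionVars false

namespace Pool.Agent.helper81.BS

open Pool.Agent.helper81.PL

theorem M10_dl (n : ℕ) (E M : Finset ℕ) (e : ℕ) : dl n (E.erase e) M = (dl n E M).erase e := by
  unfold dl
  ext x
  simp only [Finset.mem_filter, Finset.mem_erase]
  tauto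

theorem M10_dd1 (n : ℕ) (E M : Finset ℕ) (e : ℕ) : dd n E M ≤ dd n (E.erase e) M + 1 := by
  unfold dd
  rw [M10_dl]
  by_cases h : e ∈ dl n E M
  · rw [Finset.card_erase_of_mem h]; omega
  · rw [Finset.erase_eq_of_notMem h]; omega

theorem M10_dd2 (n : ℕ) (E M : Finset ℕ) (e : ℕ) (h : e ∈ dl n E M) :
    dd n (E.erase e) M + 1 = dd n E M := by
  unfold dd
  rw [M10_dl, Finset.card_erase_of_mem h]
  have := Finset.card_pos.2 ⟨e, h⟩
  omega

/-- an arc inside `M` is not the edge `e` leaving `M` -/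
theorem M10_ne (n : ℕ) (E M : Finset ℕ) (e : ℕ) (h : e ∈ dl n E M) (a b : ℕ) (ha : a ∈ M) (hb : b ∈ M)
    (hbn : b < n) : a * n + b ≠ e := by
  intro he
  have h1 := (Finset.mem_filter.1 h).2
  have hn : 0 < n := by omega
  have e1 : e / n = a := by
    rw [← he, mul_comm, Nat.mul_add_div hn, Nat.div_eq_of_lt hbn, add_zero]
  have e2 : e % n = b := by
    rw [← he, mul_comm, Nat.mul_add_mod, Nat.mod_eq_of_lt hbn]
  rw [e1, e2] at h1
  simp [fmem, ha, hb] at h1

theorem M10_feas (n : ℕ) (E Q : Finset ℕ) (v e : ℕ) (M : Finset ℕ) (hF : Feas n E Q v M)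
    (h : e ∈ dl n E M) : Feas n (E.erase e) Q v M := by
  obtain ⟨h1, h2, h3, h4⟩ := hF
  refine ⟨h1, h2, h3, fun X hX hv hne => ?_⟩
  obtain ⟨a, ha, b, hb, hab⟩ := h4 X hX hv hne
  refine ⟨a, ha, b, hb, ?_⟩
  have haM := hX ha
  have hbM := (Finset.mem_sdiff.1 hb).1
  have han := Finset.mem_range.1 (h1 haM)
  have hbn := Finset.mem_range.1 (h1 hbM)
  have n1 := M10_ne n E M e h a b haM hbM hbn
  have n2 := M10_ne n E M e h b a hbM haM han
  unfold adjb fmem at hab ⊢
  simp only [Bool.or_eq_true, decide_eq_true_eq, Finset.mem_erase] at hab ⊢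
  rcases hab with hab | hab
  · exact Or.inl ⟨n1, hab⟩
  · exact Or.inr ⟨n2, hab⟩

theorem M10_feas' (n : ℕ) (E Q : Finset ℕ) (v e : ℕ) (M : Finset ℕ)
    (hF : Feas n (E.erase e) Q v M) : Feas n E Q v M := by
  obtain ⟨h1, h2, h3, h4⟩ := hF
  refine ⟨h1, h2, h3, fun X hX hv hne => ?_⟩
  obtain ⟨a, ha, b, hb, hab⟩ := h4 X hX hv hne
  refine ⟨a, ha, b, hb, ?_⟩
  unfold adjb fmem at hab ⊢
  simp only [Bool.or_eq_true, decide_eq_true_eq, Finset.mem_erase] at hab ⊢
  rcases hab with hab | hab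
  · exact Or.inl hab.2
  · exact Or.inr hab.2

theorem M10 : M10_stmt := by
  intro n E Q v e hW he
  refine ⟨fun M hM h => M10_feas n E Q v e M hM h, fun M => M10_dd1 n E M e, ?_⟩
  rintro R ⟨hR1, hR2⟩ h
  have h1 := M10_dd2 n E R e h
  refine ⟨⟨M10_feas n E Q v e R hR1 h, fun M hM hRM => ?_⟩, h1⟩
  have h2 := hR2 M (M10_feas' n E Q v e M hM) hRM
  have h3 := M10_dd1 n E M e
  omega

end Pool.Agent.helper81.BS
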