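import Pool.Agent.helper50.BS.SpecU

set_option autoImplicit false
set_option linter.unusedVariables false
set_option linter.dupNamespace false

open scoped Classical

noncomputable section

namespace Pool.Agent.helper50.BT

open Pool.Agent.helper81.PL

theorem UC4_ne (g : BS.IG) (W : Finset ℕ) (A : Finset (ℕ ⊕ ℕ)) (hA : A ⊆ g.X0 W)
    (hne : A ≠ ∅) (h1 : BS.nW W A = 0) (h2 : g.cW W A = 0) : False := by
  have hl : ∀ v, Sum.inl v ∉ A := by
    intro v hv
    unfold BS.nW at h1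
    rw [Finset.card_eq_zero] at h1
    have hvW : v ∈ W := by
      have := hA hv
      unfold BS.IG.X0 at this
      exact Finset.inl_mem_disjSum.1 this
    have : v ∈ A.toLeft ∩ W := Finset.mem_inter.2 ⟨Finset.mem_toLeft.2 hv, hvW⟩
    rw [h1] at this
    exact absurd this (Finset.notMem_empty v)
  obtain ⟨a, ha⟩ := Finset.nonempty_iff_ne_empty.2 hne
  rcases a with v | e
  · exact hl v ha
  · have he : e ∈ g.EW W := by
      have := hA ha
      unfold BS.IG.X0 at this
      exact Finset.inr_mem_disjSum.1 this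
    unfold BS.IG.EW at he
    rw [Finset.mem_filter] at he
    unfold BS.IG.cW at h2
    rw [Finset.sum_eq_zero_iff] at h2
    have h3 := h2 e he.1
    rw [Nat.add_eq_zero_iff] at h3
    rcases he.2 with hs | ht
    · have h4 : g.s e ∈ W ∧ ¬ (Sum.inl (g.s e) ∈ A ↔ Sum.inr e ∈ A) :=
        ⟨hs, fun h => hl _ (h.2 ha)⟩
      rw [if_pos h4] at h3
      exact absurd h3.1 one_ne_zero
    · have h4 : g.t e ∈ W ∧ ¬ (Sum.inl (g.t e) ∈ A ↔ Sum.inr e ∈ A) :=
        ⟨ht, fun h => hl _ (h.2 ha)⟩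
      rw [if_pos h4] at h3
      exact absurd h3.2 one_ne_zero

theorem UC4_zero (g : BS.IG) (W β : Finset ℕ) :
    BS.nW W ∅ = 0 ∧ g.cW W ∅ = 0 ∧ BS.bB β ∅ = 0 := by
  refine ⟨?_, ?_, ?_⟩
  · unfold BS.nW
    rw [Finset.card_eq_zero, Finset.eq_empty_iff_forall_notMem]
    intro v hv
    rw [Finset.mem_inter, Finset.mem_toLeft] at hv
    exact absurd hv.1 (Finset.notMem_empty _)
  · unfold BS.IG.cW
    refine Finset.sum_eq_zero fun e _ => ?_
    have h0 : ∀ (p q : Prop) (a b : ℕ ⊕ ℕ), ¬ (p ∧ ¬ (a ∈ (∅ : Finset (ℕ ⊕ ℕ)) ↔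
        b ∈ (∅ : Finset (ℕ ⊕ ℕ)))) := by
      rintro p q a b ⟨_, h⟩
      exact h ⟨fun h => absurd h (Finset.notMem_empty _), fun h => absurd h (Finset.notMem_empty _)⟩
    rw [if_neg (h0 _ True _ _), if_neg (h0 _ True _ _), add_zero]
  · unfold BS.bB
    rw [Finset.card_eq_zero, Finset.eq_empty_iff_forall_notMem]
    intro v hv
    rw [Finset.mem_inter, Finset.mem_toRight] at hv
    exact absurd hv.1 (Finset.notMem_empty _)

theorem UC4 : UC4_stmt := by
  intro M n k l T g W β U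
  rw [map_sum, Finset.sum_eq_single ∅]
  · unfold BS.om
    rw [T.cf_mon 0 0 0 _ _ _ (Nat.zero_le _) (Nat.zero_le _) (Nat.zero_le _)]
    exact if_pos (UC4_zero g W β)
  · intro A hA hne
    rw [Finset.mem_filter, Finset.mem_powerset] at hA
    unfold BS.om
    rw [T.cf_mon 0 0 0 _ _ _ (Nat.zero_le _) (Nat.zero_le _) (Nat.zero_le _)]
    refine if_neg ?_
    rintro ⟨h1, h2, _⟩
    exact UC4_ne g W A hA.1 hne h1 h2
  · intro h
    exfalso
    apply h
    rw [Finset.mem_filter, Finset.mem_powerset]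
    refine ⟨Finset.empty_subset _, ?_⟩
    intro v hv
    rw [Finset.mem_inter, Finset.mem_toRight] at hv
    exact absurd hv.1 (Finset.notMem_empty _)

end Pool.Agent.helper50.BT

end
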