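import Pool.Agent.helper73.BS.Spec2

/-!
# Row `bs:HP`
-/

set_option autoImplicit false

namespace Pool.Agent.BS

open Matrix Module Pool.Agent.UG Pool.Agent.H48SL Pool.Agent.SHL

theorem HP_mono {G : Type} [Group G] (N : ℕ) (H H' : Subgroup G) (h : H ≤ H') (hN : Hi N H) :
    Hi N H' := by
  cases N with
  | zero => trivial
  | succ N =>
    obtain ⟨K, L, h1, h2, h3, h4, h5⟩ := hN
    exact ⟨K, L, h1, h2.trans h, h3, h4, h5⟩

theorem HP_one {G : Type} [Group G] (N : ℕ) : ∀ H H' : Subgroup G,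
    (∀ x ∈ H, ∃ j : ℕ, 0 < j ∧ x ^ j ∈ H') → Hi N H → Hi N (H' ⊓ H) := by
  induction N with
  | zero => intro H H' _ _; trivial
  | succ N ih =>
    intro H H' hi hN
    obtain ⟨K, L, h1, h2, h3, ⟨g, hg, hgj⟩, h5⟩ := hN
    obtain ⟨m, hm, hgm⟩ := hi g (h2 hg)
    refine ⟨H' ⊓ K, H' ⊓ L, inf_le_inf_left _ h1, inf_le_inf_left _ h2, ?_, ⟨g ^ m, ?_, ?_⟩,
      ih K H' (fun x hx => hi x (h2 (h1 hx))) h5⟩
    · intro l hl k hk
      exact ⟨H'.mul_mem (H'.mul_mem hl.1 hk.1) (H'.inv_mem hl.1), h3 l hl.2 k hk.2⟩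
    · exact ⟨hgm, L.pow_mem hg m⟩
    · intro j hj hmem
      refine hgj (m * j) (Nat.mul_pos hm hj) ?_
      rw [pow_mul]
      exact hmem.2

theorem HP_two {G : Type} [Group G] {G' : Type} [Group G'] (φ : G →* G') (a b : ℕ) :
    ∀ H : Subgroup G, Hi a (H ⊓ φ.ker) → Hi b (H.map φ) → Hi (a + b) H := by
  induction b with
  | zero =>
    intro H ha _
    exact HP_mono a _ H inf_le_left ha
  | succ b ih =>
    intro H ha hb
    obtain ⟨K, L, h1, h2, h3, ⟨g', hg', hgj⟩, h5⟩ := hb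
    have hmap : (H ⊓ K.comap φ).map φ = K := by
      ext y
      rw [Subgroup.mem_map]
      constructor
      · rintro ⟨x, hx, rfl⟩
        exact hx.2
      · intro hy
        obtain ⟨x, hx, rfl⟩ := Subgroup.mem_map.1 (h2 (h1 hy))
        exact ⟨x, ⟨hx, hy⟩, rfl⟩
    have hker : H ⊓ φ.ker ≤ (H ⊓ K.comap φ) ⊓ φ.ker := by
      intro x hx
      refine ⟨⟨hx.1, ?_⟩, hx.2⟩
      show φ x ∈ K
      have : φ x = 1 := hx.2
      rw [this]
      exact K.one_mem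
    obtain ⟨g, hg, rfl⟩ := Subgroup.mem_map.1 (h2 hg')
    refine ⟨H ⊓ K.comap φ, H ⊓ L.comap φ, inf_le_inf_left _ (Subgroup.comap_mono h1), inf_le_left,
      ?_, ⟨g, ⟨hg, hg'⟩, ?_⟩, ih (H ⊓ K.comap φ) (HP_mono a _ _ hker ha) (by rw [hmap]; exact h5)⟩
    · intro l hl k hk
      refine ⟨H.mul_mem (H.mul_mem hl.1 hk.1) (H.inv_mem hl.1), ?_⟩
      show φ (l * k * l⁻¹) ∈ K
      rw [map_mul, map_mul, map_inv]
      exact h3 _ hl.2 _ hk.2
    · intro j hj hmem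
      apply hgj j hj
      have : φ (g ^ j) ∈ K := hmem.2
      rwa [map_pow] at this

theorem HP : HP_stmt := by
  intro G _
  exact ⟨fun N H H' h hN => HP_one N H H' h hN, fun G' _ φ a b H ha hb => HP_two φ a b H ha hb⟩

end Pool.Agent.BS
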